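import Mathlib.Tactic

/-!
# Windows of the two interlaced slow sequences
-/

set_option autoImplicit false

namespace Pool.Agent.Q49.CM

/-- the coupled system of two slow sequences -/
structure Sys (P Q : ℤ → ℤ) : Prop where
  P1 : P 1 = 1
  Q1 : Q 1 = 1
  hP : ∀ m, 2 ≤ m → P m = P (Q (m - 1)) + Q (m - Q (m - 1)) - 1
  hQ : ∀ m, 2 ≤ m → Q m = P (P m) + P (m + 1 - P m)
  sP : ∀ m, 1 ≤ m → P m ≤ P (m + 1) ∧ P (m + 1) ≤ P m + 1
  sQ : ∀ m, 1 ≤ m → Q m ≤ Q (m + 1) ∧ Q (m + 1) ≤ Q m + 1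
  rP : ∀ m, 1 ≤ m → 1 ≤ P m ∧ P m ≤ m
  rQ : ∀ m, 1 ≤ m → 1 ≤ Q m ∧ Q m ≤ m

/-- a slow function -/
def Slow (f : ℤ → ℤ) : Prop := ∀ m, 1 ≤ m → f m ≤ f (m + 1) ∧ f (m + 1) ≤ f m + 1

lemma Slow.le {f : ℤ → ℤ} (h : Slow f) {x y : ℤ} (hx : 1 ≤ x) (hxy : x ≤ y) :
    f x ≤ f y ∧ f y ≤ f x + (y - x) := by
  obtain ⟨n, rfl⟩ : ∃ n : ℕ, y = x + n := ⟨(y - x).toNat, by omega⟩
  clear hxy
  induction n with
  | zero => simp
  | succ n ih =>
    have h1 := h (x + n) (by omega)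
    push_cast
    rw [← add_assoc]
    omega

/-- table lookup -/
def tb (l : List ℤ) (u s : ℤ) : ℤ := l.getD (s + u).toNat 0

def lo (l : List ℤ) (u v s : ℤ) : ℤ :=
  if s < -u then tb l u (-u) + (s + u) else if v < s then tb l u v else tb l u s

def hi (l : List ℤ) (u v s : ℤ) : ℤ :=
  if s < -u then tb l u (-u) else if v < s then tb l u v + (s - v) else tb l u s

/-- `f` has the values given by the table `l` on the window `[X - u, X + v]`, up to the
translation by `X'` -/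
def Win (f : ℤ → ℤ) (X X' : ℤ) (l : List ℤ) (u v : ℤ) : Prop :=
  ∀ s, -u ≤ s → s ≤ v → f (X + s) = X' + tb l u s

lemma bound {f : ℤ → ℤ} (hf : Slow f) {X X' : ℤ} {l : List ℤ} {u v : ℤ} (hu : 0 ≤ u)
    (hv : 0 ≤ v) (hX : 1 ≤ X - u) (hw : Win f X X' l u v) (s : ℤ) (hs : 1 ≤ X + s) :
    X' + lo l u v s ≤ f (X + s) ∧ f (X + s) ≤ X' + hi l u v s := by
  unfold lo hi
  split_ifs with h1 h2
  · have h3 := hf.le hs (show X + s ≤ X + -u by omega)
    have h4 := hw (-u) le_rfl (by omega)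
    omega
  · have h3 := hf.le (show 1 ≤ X + v by omega) (show X + v ≤ X + s by omega)
    have h4 := hw v (by omega) le_rfl
    omega
  · have h4 := hw s (by omega) (by omega)
    omega

lemma bound3 {f : ℤ → ℤ} (hf : Slow f) {X X' : ℤ} {l : List ℤ} {u v : ℤ} (hu : 0 ≤ u)
    (hv : 0 ≤ v) (hX : 1 ≤ X - u) (hw : Win f X X' l u v) {L0 L1 : ℤ} (h0 : tb l u (-u) = L0)
    (h1 : tb l u v = L1) (s : ℤ) (hs : 1 ≤ X + s) :
    (s < -u → X' + L0 + (s + u) ≤ f (X + s) ∧ f (X + s) ≤ X' + L0) ∧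
    (v < s → X' + L1 ≤ f (X + s) ∧ f (X + s) ≤ X' + L1 + (s - v)) ∧
    (-u ≤ s → s ≤ v → X' + L0 ≤ f (X + s) ∧ f (X + s) ≤ X' + L1) := by
  have e0 := hw (-u) le_rfl (by omega)
  have e1 := hw v (by omega) le_rfl
  rw [h0] at e0
  rw [h1] at e1
  refine ⟨fun h => ?_, fun h => ?_, fun h h' => ?_⟩
  · have h3 := hf.le hs (show X + s ≤ X + -u by omega)
    omega
  · have h3 := hf.le (show 1 ≤ X + v by omega) (show X + v ≤ X + s by omega)
    omega
  · have h3 := hf.le hs (show X + s ≤ X + v by omega)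
    have h4 := hf.le (show 1 ≤ X + -u by omega) (show X + -u ≤ X + s by omega)
    omega

/-- the finite check: from the offset `q` of `Q (m - 1)` the offsets of `P m`, `Q m` are forced to
be `p'`, `q'`. -/
def chk (lp lq : List ℤ) (u v e es i q p' q' : ℤ) : Bool :=
  let a := lo lp u v q + lo lq u v (e + i - q) - es - 1
  let b := hi lp u v q + hi lq u v (e + i - q) - es - 1
  (List.range (b - a + 1).toNat).all fun n =>
    let p := a + n
    let c := lo lp u v p + lo lp u v (e + i + 1 - p) - es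
    let d := hi lp u v p + hi lp u v (e + i + 1 - p) - es
    (!(decide (c ≤ q ∧ q ≤ d)) || decide (p = p' ∧ q = q')) &&
    (!(decide (c ≤ q + 1 ∧ q + 1 ≤ d)) || decide (p = p' ∧ q + 1 = q'))

lemma chk_spec {lp lq : List ℤ} {u v e es i q p' q' : ℤ} (h : chk lp lq u v e es i q p' q' = true)
    (p q2 : ℤ)
    (hp1 : lo lp u v q + lo lq u v (e + i - q) - es - 1 ≤ p)
    (hp2 : p ≤ hi lp u v q + hi lq u v (e + i - q) - es - 1)
    (hq1 : lo lp u v p + lo lp u v (e + i + 1 - p) - es ≤ q2)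
    (hq2 : q2 ≤ hi lp u v p + hi lp u v (e + i + 1 - p) - es)
    (hqq : q ≤ q2 ∧ q2 ≤ q + 1) : p = p' ∧ q2 = q' := by
  unfold chk at h
  simp only [List.all_eq_true, List.mem_range] at h
  have h1 := h (p - (lo lp u v q + lo lq u v (e + i - q) - es - 1)).toNat (by omega)
  have e1 : lo lp u v q + lo lq u v (e + i - q) - es - 1 +
      ((p - (lo lp u v q + lo lq u v (e + i - q) - es - 1)).toNat : ℤ) = p := by omega
  rw [e1] at h1
  simp only [Bool.and_eq_true, Bool.or_eq_true, Bool.not_eq_true', decide_eq_false_iff_not,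
    decide_eq_true_eq] at h1
  obtain ⟨h2, h3⟩ := h1
  rcases (show q2 = q ∨ q2 = q + 1 by omega) with h4 | h4
  · subst h4
    rcases h2 with h2 | h2
    · exact absurd ⟨hq1, hq2⟩ h2
    · exact h2
  · subst h4
    rcases h3 with h3 | h3
    · exact absurd ⟨hq1, hq2⟩ h3
    · exact h3

/-- data of one induction step: windows of type `S` at `X` (base `X'`) and at `Y` (base `Y'`) -/
structure Dat (P Q : ℤ → ℤ) (X X' Y Y' : ℤ) (lp lq : List ℤ) (u v : ℤ) : Prop where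
  hu : 0 ≤ u
  hv : 0 ≤ v
  hX : 1 ≤ X - u
  hY : 1 ≤ Y - u
  wPX : Win P X X' lp u v
  wPY : Win P Y Y' lp u v
  wQY : Win Q Y Y' lq u v

lemma step_one {P Q : ℤ → ℤ} (hS : Sys P Q) {X X' Y Y' : ℤ} {lp lq : List ℤ} {u v : ℤ}
    (hD : Dat P Q X X' Y Y' lp lq u v) {e es i q p' q' : ℤ} (hes : X' + Y' = X - es)
    (hm : 2 ≤ X + Y + e + i)
    (hc : chk lp lq u v e es i q p' q' = true)
    (hq : Q (X + Y + e + i - 1) = X + q) :
    P (X + Y + e + i) = X + p' ∧ Q (X + Y + e + i) = X + q' := by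
  set m := X + Y + e + i with hmdef
  have h1 := hS.hP m hm
  have h2 := hS.hQ m hm
  have hr1 := hS.rQ (m - 1) (by omega)
  have hr2 := hS.rP m (by omega)
  have hs := hS.sQ (m - 1) (by omega)
  rw [sub_add_cancel] at hs
  rw [hq] at h1 hr1 hs
  have b1 := bound hS.sP hD.hu hD.hv hD.hX hD.wPX q (by omega)
  have b2 := bound hS.sQ hD.hu hD.hv hD.hY hD.wQY (e + i - q) (by omega)
  rw [show Y + (e + i - q) = m - (X + q) by omega] at b2
  have b3 := bound hS.sP hD.hu hD.hv hD.hX hD.wPX (P m - X) (by omega)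
  have b4 := bound hS.sP hD.hu hD.hv hD.hY hD.wPY (e + i + 1 - (P m - X)) (by omega)
  rw [show X + (P m - X) = P m by omega] at b3
  rw [show Y + (e + i + 1 - (P m - X)) = m + 1 - P m by omega] at b4
  have := chk_spec hc (P m - X) (Q m - X) (by omega) (by omega) (by omega) (by omega)
    ⟨by omega, by omega⟩
  omega

end Pool.Agent.Q49.CM
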