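import Pool.Agent.Q49.CM1
import Mathlib.Tactic

/-!
# The induction step and the base of the induction for the windows
-/

set_option autoImplicit false

namespace Pool.Agent.Q49.CM

/-- tables for the windows at even indices -/
def pA : List ℤ := [-9, -8, -7, -7, -6, -6, -5, -5, -5, -4, -3, -3, -2, -2, -2, -1, -1, -1, -1, 0, 0, 0, 0, 0, 0, 0, 0, 0, 0, 0, 0, 0, 0]
def qA : List ℤ := [-8, -7, -6, -6, -6, -5, -4, -4, -3, -3, -2, -2, -2, -2, -2, -2, -2, -2, -2, -2, -2, -1, -1, -1, -1, -1, 0, 0, 0, 0, 0, 1, 1]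
/-- tables for the windows at odd indices (starting at `-10`) -/
def pB' : List ℤ := [-2, -2, -1, 0, 0, 1, 1, 2, 2, 2, 2, 2, 2, 2, 2, 3, 3, 3, 3, 3, 4, 4, 4, 4, 4, 5, 5, 5, 5, 5, 5]
def qB' : List ℤ := [-2, -1, 0, 1, 1, 1, 2, 3, 3, 3, 4, 4, 4, 4, 5, 5, 5, 5, 5, 5, 5, 5, 5, 5, 5, 6, 6, 6, 6, 6, 6]
/-- the same tables starting at `-9` -/
def pB : List ℤ := [-2, -1, 0, 0, 1, 1, 2, 2, 2, 2, 2, 2, 2, 2, 3, 3, 3, 3, 3, 4, 4, 4, 4, 4, 5, 5, 5, 5, 5, 5]
def qB : List ℤ := [-1, 0, 1, 1, 1, 2, 3, 3, 3, 4, 4, 4, 4, 5, 5, 5, 5, 5, 5, 5, 5, 5, 5, 5, 6, 6, 6, 6, 6, 6]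

/-- from windows of type B at the two smaller places to type A: start at `-10` -/
def startA : Bool := (List.range 101).all fun n => chk pB qB 9 20 (-7) 6 (-10) ((n : ℤ) - 50) (-9) (-8)

def startB : Bool := (List.range 101).all fun n => chk pA qA 10 22 6 (-7) (-10) ((n : ℤ) - 50) (-2) (-2)

def contA : Bool := (List.range 32).all fun n =>
  chk pB qB 9 20 (-7) 6 ((n : ℤ) - 9) (tb qA 10 ((n : ℤ) - 10)) (tb pA 10 ((n : ℤ) - 9)) (tb qA 10 ((n : ℤ) - 9))

def contB : Bool := (List.range 30).all fun n =>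
  chk pA qA 10 22 6 (-7) ((n : ℤ) - 9) (tb qB' 10 ((n : ℤ) - 10)) (tb pB' 10 ((n : ℤ) - 9)) (tb qB' 10 ((n : ℤ) - 9))

theorem startA_true : startA = true := by decide +kernel
theorem startB_true : startB = true := by decide +kernel
theorem contA_true : contA = true := by decide +kernel
theorem contB_true : contB = true := by decide +kernel


/-- at time `-10` everything is forced: type A -/
lemma sync_A {P Q : ℤ → ℤ} (hS : Sys P Q) {X X' Y Y' : ℤ}
    (hD : Dat P Q X X' Y Y' pB qB 9 20) (hes : X' + Y' = X - 6)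
    (hm : 2 ≤ X + Y + (-7) + (-10)) :
    P (X + Y + (-7) + (-10)) = X + (-9) ∧ Q (X + Y + (-7) + (-10)) = X + (-8) := by
  obtain ⟨q, hq⟩ : ∃ q, Q (X + Y + (-7) + (-10) - 1) = X + q :=
    ⟨Q (X + Y + (-7) + (-10) - 1) - X, by omega⟩
  by_cases hR : -50 ≤ q ∧ q ≤ 50
  · have h := startA_true
    unfold startA at h
    simp only [List.all_eq_true, List.mem_range] at h
    have h1 := h (q + 50).toNat (by omega)
    rw [show (((q + 50).toNat : ℕ) : ℤ) - 50 = q by omega] at h1
    exact step_one hS hD hes hm h1 hq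
  · exfalso
    set m := X + Y + (-7) + (-10) with hmdef
    have h1 := hS.hP m hm
    have h2 := hS.hQ m hm
    have hr1 := hS.rQ (m - 1) (by omega)
    have hr2 := hS.rP m (by omega)
    have hs := hS.sQ (m - 1) (by omega)
    rw [sub_add_cancel] at hs
    rw [hq] at h1 hr1 hs
    have b1 := bound3 hS.sP hD.hu hD.hv hD.hX hD.wPX (L0 := -2) (L1 := 5) (by decide) (by decide)
      q (by omega)
    have b2 := bound3 hS.sQ hD.hu hD.hv hD.hY hD.wQY (L0 := -1) (L1 := 6) (by decide) (by decide)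
      (-17 - q) (by omega)
    rw [show Y + (-17 - q) = m - (X + q) by omega] at b2
    have b3 := bound3 hS.sP hD.hu hD.hv hD.hX hD.wPX (L0 := -2) (L1 := 5) (by decide) (by decide)
      (P m - X) (by omega)
    have b4 := bound3 hS.sP hD.hu hD.hv hD.hY hD.wPY (L0 := -2) (L1 := 5) (by decide) (by decide)
      (-16 - (P m - X)) (by omega)
    rw [show X + (P m - X) = P m by omega] at b3
    rw [show Y + (-16 - (P m - X)) = m + 1 - P m by omega] at b4
    generalize P (X + q) = a1 at *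
    generalize Q (m - (X + q)) = a2 at *
    generalize P (P m) = a3 at *
    generalize P (m + 1 - P m) = a4 at *
    generalize P m = a5 at *
    generalize Q m = a6 at *
    omega

/-- at time `-10` everything is forced: type B -/
lemma sync_B {P Q : ℤ → ℤ} (hS : Sys P Q) {X X' Y Y' : ℤ}
    (hD : Dat P Q X X' Y Y' pA qA 10 22) (hes : X' + Y' = X - (-7))
    (hm : 2 ≤ X + Y + 6 + (-10)) :
    P (X + Y + 6 + (-10)) = X + (-2) ∧ Q (X + Y + 6 + (-10)) = X + (-2) := by
  obtain ⟨q, hq⟩ : ∃ q, Q (X + Y + 6 + (-10) - 1) = X + q :=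
    ⟨Q (X + Y + 6 + (-10) - 1) - X, by omega⟩
  by_cases hR : -50 ≤ q ∧ q ≤ 50
  · have h := startB_true
    unfold startB at h
    simp only [List.all_eq_true, List.mem_range] at h
    have h1 := h (q + 50).toNat (by omega)
    rw [show (((q + 50).toNat : ℕ) : ℤ) - 50 = q by omega] at h1
    exact step_one hS hD hes hm h1 hq
  · exfalso
    set m := X + Y + 6 + (-10) with hmdef
    have h1 := hS.hP m hm
    have h2 := hS.hQ m hm
    have hr1 := hS.rQ (m - 1) (by omega)
    have hr2 := hS.rP m (by omega)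
    have hs := hS.sQ (m - 1) (by omega)
    rw [sub_add_cancel] at hs
    rw [hq] at h1 hr1 hs
    have b1 := bound3 hS.sP hD.hu hD.hv hD.hX hD.wPX (L0 := -9) (L1 := 0) (by decide) (by decide)
      q (by omega)
    have b2 := bound3 hS.sQ hD.hu hD.hv hD.hY hD.wQY (L0 := -8) (L1 := 1) (by decide) (by decide)
      (-4 - q) (by omega)
    rw [show Y + (-4 - q) = m - (X + q) by omega] at b2
    have b3 := bound3 hS.sP hD.hu hD.hv hD.hX hD.wPX (L0 := -9) (L1 := 0) (by decide) (by decide)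
      (P m - X) (by omega)
    have b4 := bound3 hS.sP hD.hu hD.hv hD.hY hD.wPY (L0 := -9) (L1 := 0) (by decide) (by decide)
      (-3 - (P m - X)) (by omega)
    rw [show X + (P m - X) = P m by omega] at b3
    rw [show Y + (-3 - (P m - X)) = m + 1 - P m by omega] at b4
    generalize P (X + q) = a1 at *
    generalize Q (m - (X + q)) = a2 at *
    generalize P (P m) = a3 at *
    generalize P (m + 1 - P m) = a4 at *
    generalize P m = a5 at *
    generalize Q m = a6 at *
    omega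

/-- the window of type A -/
lemma win_A {P Q : ℤ → ℤ} (hS : Sys P Q) {X X' Y Y' : ℤ}
    (hD : Dat P Q X X' Y Y' pB qB 9 20) (hes : X' + Y' = X - 6)
    (hm : 2 ≤ X + Y + (-7) + (-10)) :
    Win P (X + Y + (-7)) X pA 10 22 ∧ Win Q (X + Y + (-7)) X qA 10 22 := by
  have key : ∀ n : ℕ, n < 33 →
      P (X + Y + (-7) + ((n : ℤ) - 10)) = X + tb pA 10 ((n : ℤ) - 10) ∧
      Q (X + Y + (-7) + ((n : ℤ) - 10)) = X + tb qA 10 ((n : ℤ) - 10) := by
    intro n
    induction n with
    | zero =>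
      intro _
      have h := sync_A hS hD hes hm
      simpa [tb, pA, qA] using h
    | succ n ih =>
      intro hn
      have h := ih (by omega)
      have hc := contA_true
      unfold contA at hc
      simp only [List.all_eq_true, List.mem_range] at hc
      have h1 := hc n (by omega)
      have e1 : (((n + 1 : ℕ) : ℤ) - 10) = (n : ℤ) - 9 := by push_cast; ring
      rw [e1]
      refine step_one hS hD hes (by omega) h1 ?_
      rw [show X + Y + (-7) + ((n : ℤ) - 9) - 1 = X + Y + (-7) + ((n : ℤ) - 10) by ring]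
      exact h.2
  constructor
  · intro s hs1 hs2
    have := (key (s + 10).toNat (by omega)).1
    rwa [show (((s + 10).toNat : ℕ) : ℤ) - 10 = s by omega] at this
  · intro s hs1 hs2
    have := (key (s + 10).toNat (by omega)).2
    rwa [show (((s + 10).toNat : ℕ) : ℤ) - 10 = s by omega] at this

lemma tb_pB (n : ℕ) (h1 : 1 ≤ n) (h2 : n < 31) : tb pB' 10 ((n : ℤ) - 10) = tb pB 9 ((n : ℤ) - 10) := by
  interval_cases n <;> decide

lemma tb_qB (n : ℕ) (h1 : 1 ≤ n) (h2 : n < 31) : tb qB' 10 ((n : ℤ) - 10) = tb qB 9 ((n : ℤ) - 10) := by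
  interval_cases n <;> decide

/-- the window of type B -/
lemma win_B {P Q : ℤ → ℤ} (hS : Sys P Q) {X X' Y Y' : ℤ}
    (hD : Dat P Q X X' Y Y' pA qA 10 22) (hes : X' + Y' = X - (-7))
    (hm : 2 ≤ X + Y + 6 + (-10)) :
    Win P (X + Y + 6) X pB 9 20 ∧ Win Q (X + Y + 6) X qB 9 20 := by
  have key : ∀ n : ℕ, n < 31 →
      P (X + Y + 6 + ((n : ℤ) - 10)) = X + tb pB' 10 ((n : ℤ) - 10) ∧
      Q (X + Y + 6 + ((n : ℤ) - 10)) = X + tb qB' 10 ((n : ℤ) - 10) := by
    intro n
    induction n with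
    | zero =>
      intro _
      have h := sync_B hS hD hes hm
      simpa [tb, pB', qB'] using h
    | succ n ih =>
      intro hn
      have h := ih (by omega)
      have hc := contB_true
      unfold contB at hc
      simp only [List.all_eq_true, List.mem_range] at hc
      have h1 := hc n (by omega)
      have e1 : (((n + 1 : ℕ) : ℤ) - 10) = (n : ℤ) - 9 := by push_cast; ring
      rw [e1]
      refine step_one hS hD hes (by omega) h1 ?_
      rw [show X + Y + 6 + ((n : ℤ) - 9) - 1 = X + Y + 6 + ((n : ℤ) - 10) by ring]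
      exact h.2
  constructor
  · intro s hs1 hs2
    have := (key (s + 10).toNat (by omega)).1
    rwa [tb_pB _ (by omega) (by omega), show (((s + 10).toNat : ℕ) : ℤ) - 10 = s by omega] at this
  · intro s hs1 hs2
    have := (key (s + 10).toNat (by omega)).2
    rwa [tb_qB _ (by omega) (by omega), show (((s + 10).toNat : ℕ) : ℤ) - 10 = s by omega] at this

end Pool.Agent.Q49.CM
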