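import Pool.Agent.Q49.CM2
import Mathlib.Tactic

/-!
# The base of the induction and the special points
-/

set_option autoImplicit false

namespace Pool.Agent.Q49.CM

def LP : List ℤ := [0, 1, 1, 1, 2, 2, 2, 2, 3, 3, 3, 4, 4, 4, 4, 4, 5, 6, 6, 6, 7, 7, 7, 7, 8, 8, 8, 8, 8, 8, 8, 8, 9, 10, 11, 11, 12, 12, 12, 13, 13, 13, 13, 14, 14, 14, 14, 14, 14, 15, 15, 16, 17, 17, 17, 17, 17, 17, 17, 17, 18, 18, 18, 18, 18, 19, 20, 20, 21, 21, 21, 21, 21, 22, 23, 24, 24, 25, 25, 25, 26, 26, 26, 26, 27, 27, 27, 27, 27, 27, 27, 27, 27, 27, 28, 28, 28, 28, 29, 29, 30, 31, 31, 31, 31, 31, 32, 33, 34, 34, 35, 35, 36, 36, 36, 36, 36, 36, 36, 36, 37, 37, 37, 37, 37, 38, 38, 38, 38, 38, 39, 39, 40, 40, 40, 40, 41, 41, 41, 41, 41, 42, 42, 42, 42, 42, 42, 43, 43, 43, 43, 43, 44, 45, 46, 47, 48, 48, 49, 49, 49, 50, 51, 52, 52, 53, 53, 53, 54, 54, 54, 54, 55, 55, 55, 55, 55, 55, 55, 55, 55, 55, 55, 55, 55, 55, 56, 56, 56, 56, 57, 57, 57, 57, 57, 57,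 58, 58, 59, 59, 59, 60, 61, 61, 61, 61, 61, 62, 63, 64, 65, 65, 65, 65, 65, 65, 65, 65, 65, 66, 67, 67, 67, 68, 68, 68, 68, 69, 70, 70, 71, 71, 71, 71, 72, 73, 74, 75, 75, 76, 76, 77, 77, 77, 77, 77, 77, 77, 77, 78, 78, 78, 78, 78, 79, 79, 79, 79, 79, 80, 80, 80, 80, 80, 80, 81, 81, 81, 81, 82, 82, 82, 82, 82, 82, 83, 83, 83, 83, 84, 84, 84, 84, 84, 84, 84, 84, 85, 85, 86, 86, 86, 86, 86, 86, 86, 86, 86, 86, 86, 86, 86, 87, 88, 88, 88, 88, 88, 89, 89, 90, 91, 92, 93, 93, 94, 94, 94, 95, 96, 96, 97, 97, 97, 97, 98, 98, 98, 99, 99, 99, 100, 101, 101, 102, 103, 103, 103, 103, 103, 104, 105, 106, 107, 108, 108, 109, 109, 110, 110, 110, 111, 112, 112, 113, 113, 113, 114, 114, 114, 114, 115, 115, 115, 115, 115, 115, 115, 115, 115, 115, 115, 115, 115, 115, 116, 116, 116, 116, 116, 116, 116, 116, 117, 117, 117, 117, 117, 117, 118, 118, 118, 118, 118, 118, 118, 118, 119, 120, 120, 121, 121, 122, 122, 122, 123, 124, 124, 124, 124,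 124, 124, 124, 124, 124, 125, 125, 126, 127, 128, 128, 128, 128, 128, 128, 128, 128, 128, 128, 128, 129, 130, 130, 130, 131, 131, 131, 131, 131, 131, 131, 131, 132, 132, 133, 133, 133, 133, 133, 134, 135, 135, 135, 135, 136, 136, 136, 136, 136, 136, 136, 136, 137, 138, 139, 139, 140, 140, 140, 140, 140, 141, 141, 141, 142, 143, 143, 143, 143, 143, 143, 144, 145, 146, 147, 147, 147, 148, 148, 148, 148, 148, 148, 149, 150, 151, 151, 152, 153, 154, 155, 156, 156, 156, 157, 158, 158, 159, 159, 160, 160, 160, 161, 162, 163, 163, 164, 164, 165, 165, 165, 165, 165, 165, 165, 165, 166, 166, 166, 166, 166, 167, 167, 167, 167, 167, 168, 168, 168, 168, 168, 168, 169, 169, 169]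

def LQ : List ℤ := [0, 1, 2, 2, 2, 3, 3, 3, 3, 3, 4, 5, 5, 5, 6, 6, 6, 6, 6, 6, 6, 6, 7, 8, 9, 9, 9, 10, 10, 10, 10, 11, 11, 11, 12, 12, 12, 12, 12, 12, 12, 12, 12, 12, 12, 13, 14, 15, 15, 15, 16, 17, 18, 18, 18, 19, 19, 19, 19, 20, 20, 20, 20, 20, 20, 20, 21, 21, 21, 22, 22, 23, 24, 24, 24, 25, 25, 25, 25, 25, 25, 25, 25, 25, 25, 25, 26, 26, 26, 26, 26, 27, 28, 28, 28, 29, 29, 29, 29, 29, 29, 29, 29, 30, 31, 32, 33, 34, 35, 35, 35, 36, 37, 37, 37, 38, 38, 38, 38, 39, 39, 39, 39, 39, 39, 39, 39, 39, 39, 39, 40, 40, 40, 41, 41, 41, 41, 41, 42, 42, 43, 43, 44, 44, 44, 44, 44, 45, 46, 47, 48, 48, 48, 48, 48, 48, 48, 49, 50, 50, 51, 51, 52, 53, 53, 53, 53, 53, 53, 53, 53, 53, 53, 53, 54, 54, 54, 54, 54, 55, 55, 55, 55, 55, 56, 56, 56, 57, 57, 57, 57, 57, 58, 58, 58, 58, 58, 58, 58, 59, 59, 60, 60, 60, 60, 60, 60, 60, 60, 60, 61, 62, 62, 62, 62, 62, 63, 64, 65, 66, 66, 67, 68, 69, 69, 70, 70, 70, 70, 70, 70, 71, 72, 73, 73, 74,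 75, 76, 76, 76, 77, 78, 78, 78, 79, 79, 79, 79, 80, 80, 80, 80, 80, 80, 80, 80, 80, 80, 80, 81, 81, 81, 81, 81, 81, 81, 82, 82, 82, 82, 82, 83, 83, 83, 83, 83, 83, 83, 84, 85, 85, 86, 86, 86, 87, 88, 88, 88, 88, 88, 88, 88, 89, 90, 91, 92, 92, 92, 92, 92, 92, 92, 92, 92, 92, 92, 93, 94, 94, 94, 94, 94, 94, 94, 94, 95, 96, 96, 96, 96, 96, 96, 96, 97, 98, 99, 99, 100, 100, 100, 100, 101, 102, 102, 102, 102, 103, 104, 105, 106, 106, 106, 107, 108, 109, 109, 109, 110, 111, 111, 112, 112, 113, 113, 113, 113, 113, 113, 113, 113, 113, 113, 113, 114, 114, 114, 114, 114, 115, 115, 115, 115, 115, 116, 116, 116, 116, 116, 116, 116, 117, 117, 117, 117, 117, 118, 118, 118, 118, 118, 118, 118, 119, 119, 119, 119, 120, 120, 121, 121, 121, 121, 121, 121, 121, 121, 121, 121, 121, 121, 122, 122, 123, 123, 123, 124, 124, 124, 124, 124, 124, 124, 124, 124, 124, 124, 124, 124, 124, 125, 125, 126, 127, 127, 127, 127, 127, 127, 128, 128, 129, 130,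 131, 132, 132, 133, 133, 134, 134, 134, 134, 134, 135, 136, 137, 137, 138, 138, 138, 138, 139, 139, 139, 139, 139, 139, 139, 140, 140, 140, 141, 142, 143, 143, 143, 143, 144, 145, 145, 145, 145, 145, 145, 145, 146, 146, 147, 147, 148, 149, 150, 151, 151, 151, 151, 151, 152, 153, 154, 155, 156, 157, 157, 158, 158, 159, 159, 159, 159, 159, 160, 161, 162, 163, 164, 164, 164, 165, 166, 166, 166, 167, 167, 167, 167, 168, 168, 168, 168, 168, 168, 168, 168, 168, 168, 168, 169, 169, 169, 169, 169, 169, 169, 170, 170]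

def chkBase : Bool := (List.range 543).all fun n =>
  let m := n + 2
  decide (LP.getD m 0 = LP.getD (LQ.getD (m - 1) 0).toNat 0 +
    LQ.getD ((m : ℤ) - LQ.getD (m - 1) 0).toNat 0 - 1) &&
  decide (LQ.getD m 0 = LP.getD (LP.getD m 0).toNat 0 +
    LP.getD ((m : ℤ) + 1 - LP.getD m 0).toNat 0) &&
  decide (1 ≤ LQ.getD (m - 1) 0 ∧ LQ.getD (m - 1) 0 ≤ (m : ℤ) - 1) &&
  decide (1 ≤ LP.getD m 0 ∧ LP.getD m 0 ≤ (m : ℤ))

theorem chkBase_true : chkBase = true := by decide +kernel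

lemma base_eq {P Q : ℤ → ℤ} (hS : Sys P Q) : ∀ n : ℕ, 1 ≤ n → n < 545 →
    P n = LP.getD n 0 ∧ Q n = LQ.getD n 0 := by
  intro n
  induction n using Nat.strong_induction_on with
  | _ n ih =>
    intro h1 h2
    rcases Nat.lt_or_ge n 2 with h3 | h3
    · have : n = 1 := by omega
      subst this
      have e1 : LP.getD 1 0 = 1 := by decide +kernel
      have e2 : LQ.getD 1 0 = 1 := by decide +kernel
      refine ⟨?_, ?_⟩
      · rw [e1]; exact_mod_cast hS.P1
      · rw [e2]; exact_mod_cast hS.Q1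
    · have hc := chkBase_true
      unfold chkBase at hc
      simp only [List.all_eq_true, List.mem_range] at hc
      have h4 := hc (n - 2) (by omega)
      rw [show n - 2 + 2 = n by omega] at h4
      simp only [Bool.and_eq_true, decide_eq_true_eq] at h4
      obtain ⟨⟨⟨a1, a2⟩, a3⟩, a4⟩ := h4
      have i1 := (ih (n - 1) (by omega) (by omega) (by omega)).2
      have hcast : ((n - 1 : ℕ) : ℤ) = (n : ℤ) - 1 := by omega
      rw [hcast] at i1
      have e1 := hS.hP n (by omega)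
      have e2 := hS.hQ n (by omega)
      set q := LQ.getD (n - 1) 0 with hq
      rw [i1] at e1
      have j1 := (ih q.toNat (by omega) (by omega) (by omega)).1
      have j2 := (ih ((n : ℤ) - q).toNat (by omega) (by omega) (by omega)).2
      rw [show ((q.toNat : ℕ) : ℤ) = q by omega] at j1
      rw [show ((((n : ℤ) - q).toNat : ℕ) : ℤ) = (n : ℤ) - q by omega] at j2
      have hPn : P n = LP.getD n 0 := by
        rw [e1, j1, j2, a1]
      refine ⟨hPn, ?_⟩
      set p := LP.getD n 0 with hp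
      rw [hPn] at e2
      have hPall : ∀ k : ℕ, 1 ≤ k → k ≤ n → P k = LP.getD k 0 := by
        intro k hk1 hk2
        rcases Nat.lt_or_ge k n with hk | hk
        · exact (ih k hk hk1 (by omega)).1
        · have : k = n := by omega
          rw [this]; exact hPn
      have k1 := hPall p.toNat (by omega) (by omega)
      have k2 := hPall ((n : ℤ) + 1 - p).toNat (by omega) (by omega)
      rw [show ((p.toNat : ℕ) : ℤ) = p by omega] at k1
      rw [show ((((n : ℤ) + 1 - p).toNat : ℕ) : ℤ) = (n : ℤ) + 1 - p by omega] at k2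
      rw [e2, k1, k2, a2]

def chkWin (L l : List ℤ) (X X' u : ℤ) (N : ℕ) : Bool := (List.range N).all fun n =>
  decide (L.getD (X + ((n : ℤ) - u)).toNat 0 = X' + tb l u ((n : ℤ) - u))

lemma win_of_chk {f : ℤ → ℤ} {L l : List ℤ} {X X' u v : ℤ} {N : ℕ}
    (hf : ∀ n : ℕ, 1 ≤ n → n < 545 → f n = L.getD n 0) (h1 : 1 ≤ X - u) (h2 : X + v < 545)
    (hN : v + u < N) (hc : chkWin L l X X' u N = true) : Win f X X' l u v := by
  intro s hs1 hs2
  unfold chkWin at hc
  simp only [List.all_eq_true, List.mem_range] at hc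
  have h3 := hc (s + u).toNat (by omega)
  rw [show (((s + u).toNat : ℕ) : ℤ) - u = s by omega] at h3
  simp only [decide_eq_true_eq] at h3
  have h4 := hf (X + s).toNat (by omega) (by omega)
  rw [show (((X + s).toNat : ℕ) : ℤ) = X + s by omega] at h4
  rw [h4, h3]

/-- the special points -/
def mm : ℕ → ℤ
  | 0 => 75
  | 1 => 115
  | 2 => 163
  | (n + 3) => mm (n + 2) + mm n + (if n % 2 = 0 then 6 else -7)

lemma mm_ge : ∀ n : ℕ, 75 ≤ mm n ∧ 75 ≤ mm (n + 1) ∧ 75 ≤ mm (n + 2) := by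
  intro n
  induction n with
  | zero => simp [mm]
  | succ n ih =>
    obtain ⟨h1, h2, h3⟩ := ih
    refine ⟨h2, h3, ?_⟩
    show 75 ≤ mm (n + 3)
    rw [mm]
    split_ifs <;> omega

/-- the windows of the two types -/
def WA (P Q : ℤ → ℤ) (j : ℕ) : Prop :=
  Win P (mm (j + 3)) (mm j) pA 10 22 ∧ Win Q (mm (j + 3)) (mm j) qA 10 22

def WB (P Q : ℤ → ℤ) (j : ℕ) : Prop :=
  Win P (mm (j + 3)) (mm j) pB 9 20 ∧ Win Q (mm (j + 3)) (mm j) qB 9 20

def WW (P Q : ℤ → ℤ) (j : ℕ) : Prop := if j % 2 = 0 then WB P Q j else WA P Q j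

lemma base_W {P Q : ℤ → ℤ} (hS : Sys P Q) : WW P Q 0 ∧ WW P Q 1 ∧ WW P Q 2 := by
  have hp := fun n h1 h2 => (base_eq hS n h1 h2).1
  have hq := fun n h1 h2 => (base_eq hS n h1 h2).2
  have e3 : mm 3 = 244 := by decide
  have e4 : mm 4 = 352 := by decide
  have e5 : mm 5 = 521 := by decide
  refine ⟨?_, ?_, ?_⟩
  · rw [WW, if_pos (by norm_num)]
    unfold WB
    rw [e3, show mm 0 = 75 by decide]
    exact ⟨win_of_chk (N := 30) hp (by norm_num) (by norm_num) (by norm_num) (by decide +kernel),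
      win_of_chk (N := 30) hq (by norm_num) (by norm_num) (by norm_num) (by decide +kernel)⟩
  · rw [WW, if_neg (by norm_num)]
    unfold WA
    rw [e4, show mm 1 = 115 by decide]
    exact ⟨win_of_chk (N := 33) hp (by norm_num) (by norm_num) (by norm_num) (by decide +kernel),
      win_of_chk (N := 33) hq (by norm_num) (by norm_num) (by norm_num) (by decide +kernel)⟩
  · rw [WW, if_pos (by norm_num)]
    unfold WB
    rw [e5, show mm 2 = 163 by decide]
    exact ⟨win_of_chk (N := 30) hp (by norm_num) (by norm_num) (by norm_num) (by decide +kernel),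
      win_of_chk (N := 30) hq (by norm_num) (by norm_num) (by norm_num) (by decide +kernel)⟩

lemma step_W {P Q : ℤ → ℤ} (hS : Sys P Q) (j : ℕ) (h0 : WW P Q j) (h2 : WW P Q (j + 2)) :
    WW P Q (j + 3) := by
  have g0 := mm_ge j
  have g3 := mm_ge (j + 3)
  have r3 : mm (j + 3) = mm (j + 2) + mm j + (if j % 2 = 0 then 6 else -7) := by rw [mm]
  have r6 : mm (j + 3 + 3) = mm (j + 3 + 2) + mm (j + 3) + (if (j + 3) % 2 = 0 then 6 else -7) := by
    rw [mm]
  by_cases hj : j % 2 = 0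
  · rw [WW, if_pos hj] at h0
    rw [WW, if_pos (by omega)] at h2
    rw [WW, if_neg (by omega)]
    rw [if_pos hj] at r3
    rw [if_neg (by omega)] at r6
    have hD : Dat P Q (mm (j + 3)) (mm j) (mm (j + 2 + 3)) (mm (j + 2)) pB qB 9 20 :=
      ⟨by norm_num, by norm_num, by omega, by have := g3.2.2; rw [show j + 2 + 3 = j + 3 + 2 by ring]; omega,
        h0.1, h2.1, h2.2⟩
    have h := win_A hS hD (by omega) (by have := g3.2.2; rw [show j + 2 + 3 = j + 3 + 2 by ring]; omega)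
    have e : mm (j + 3) + mm (j + 2 + 3) + (-7) = mm (j + 3 + 3) := by
      rw [r6, show j + 2 + 3 = j + 3 + 2 by ring]; ring
    rw [e] at h
    exact h
  · rw [WW, if_neg hj] at h0
    rw [WW, if_neg (by omega)] at h2
    rw [WW, if_pos (by omega)]
    rw [if_neg hj] at r3
    rw [if_pos (by omega)] at r6
    have hD : Dat P Q (mm (j + 3)) (mm j) (mm (j + 2 + 3)) (mm (j + 2)) pA qA 10 22 :=
      ⟨by norm_num, by norm_num, by omega, by have := g3.2.2; rw [show j + 2 + 3 = j + 3 + 2 by ring]; omega,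
        h0.1, h2.1, h2.2⟩
    have h := win_B hS hD (by omega) (by have := g3.2.2; rw [show j + 2 + 3 = j + 3 + 2 by ring]; omega)
    have e : mm (j + 3) + mm (j + 2 + 3) + 6 = mm (j + 3 + 3) := by
      rw [r6, show j + 2 + 3 = j + 3 + 2 by ring]; ring
    rw [e] at h
    exact h

lemma all_W {P Q : ℤ → ℤ} (hS : Sys P Q) : ∀ j : ℕ, WW P Q j ∧ WW P Q (j + 1) ∧ WW P Q (j + 2) := by
  intro j
  induction j with
  | zero => exact base_W hS
  | succ j ih => exact ⟨ih.2.1, ih.2.2, step_W hS j ih.1 ih.2.2⟩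

/-- the value at the special points -/
lemma value {P Q : ℤ → ℤ} (hS : Sys P Q) (j : ℕ) : mm j - 2 ≤ Q (mm (j + 3)) := by
  have h := (all_W hS j).1
  unfold WW at h
  split_ifs at h with hj
  · have := h.2 0 (by norm_num) (by norm_num)
    rw [add_zero, show tb qB 9 0 = 4 by decide] at this
    omega
  · have := h.2 0 (by norm_num) (by norm_num)
    rw [add_zero, show tb qA 10 0 = -2 by decide] at this
    omega

lemma gap : ∀ j : ℕ, 200000 ≤ 10000 * mm (j + 20) - 3176 * mm (j + 23) ∧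
    200000 ≤ 10000 * mm (j + 21) - 3176 * mm (j + 24) ∧
    200000 ≤ 10000 * mm (j + 22) - 3176 * mm (j + 25) := by
  intro j
  induction j with
  | zero => decide +kernel
  | succ j ih =>
    obtain ⟨h1, h2, h3⟩ := ih
    refine ⟨by rw [show j + 1 + 20 = j + 21 by ring, show j + 1 + 23 = j + 24 by ring]; exact h2,
      by rw [show j + 1 + 21 = j + 22 by ring, show j + 1 + 24 = j + 25 by ring]; exact h3, ?_⟩
    have r1 : mm (j + 20 + 3) = mm (j + 20 + 2) + mm (j + 20) +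
      (if (j + 20) % 2 = 0 then 6 else -7) := by rw [mm]
    have r2 : mm (j + 23 + 3) = mm (j + 23 + 2) + mm (j + 23) +
      (if (j + 23) % 2 = 0 then 6 else -7) := by rw [mm]
    rw [show j + 1 + 22 = j + 20 + 3 by ring, show j + 1 + 25 = j + 23 + 3 by ring, r1, r2]
    rw [show j + 20 + 2 = j + 22 by ring, show j + 23 + 2 = j + 25 by ring]
    split_ifs <;> omega

lemma mm_tendsto : ∀ j : ℕ, (j : ℤ) ≤ mm j := by
  intro j
  have key : ∀ j : ℕ, (j : ℤ) ≤ mm j ∧ ((j + 1 : ℕ) : ℤ) ≤ mm (j + 1) ∧ ((j + 2 : ℕ) : ℤ) ≤ mm (j + 2) := by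
    intro j
    induction j with
    | zero => simp [mm]
    | succ j ih =>
      refine ⟨ih.2.1, ih.2.2, ?_⟩
      have := mm_ge j
      show ((j + 1 + 2 : ℕ) : ℤ) ≤ mm (j + 3)
      rw [mm]
      have h := ih.2.2
      push_cast at h ⊢
      split_ifs <;> omega
  exact (key j).1

end Pool.Agent.Q49.CM
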