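import Pool.Agent.Q49.CM3
import Mathlib.Tactic

/-!
# The parity-perturbed Conway–Mallows sequence
-/

set_option autoImplicit false

namespace Pool.Agent.Q49.CM

/-- the recursion, wherever the indices are legal -/
def Pre (b : ℕ → ℤ) : Prop :=
  b 1 = 1 ∧ b 2 = 1 ∧ ∀ n : ℕ, 3 ≤ n → 1 ≤ b (n - 1) → b (n - 1) ≤ (n : ℤ) - 1 →
    b n = b (b (n - 1)).toNat + b ((n : ℤ) - b (n - 1)).toNat + (-1) ^ n

lemma slowb {b : ℕ → ℤ} (h : Pre b) : ∀ n : ℕ, 1 ≤ n →
    b n % 2 = 1 ∧ 1 ≤ b n ∧ b n ≤ n ∧ (3 ≤ n → b n = b (n - 2) ∨ b n = b (n - 2) + 2) := by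
  obtain ⟨b1, b2, hr⟩ := h
  have b3 : b 3 = 1 := by
    have := hr 3 (by norm_num) (by norm_num [b2]) (by norm_num [b2])
    simpa [b1, b2] using this
  have b4 : b 4 = 3 := by
    have := hr 4 (by norm_num) (by norm_num [b3]) (by norm_num [b3])
    norm_num [b1, b3] at this
    simpa [b1, b3] using this
  intro n
  induction n using Nat.strong_induction_on with
  | _ n ih =>
    intro hn
    rcases Nat.lt_or_ge n 5 with h5 | h5
    · have : n = 1 ∨ n = 2 ∨ n = 3 ∨ n = 4 := by omega
      rcases this with rfl | rfl | rfl | rfl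
      · simp [b1]
      · simp [b2]
      · simp [b3, b1]
      · simp [b4, b2]
    · obtain ⟨o1, l1, u1, s1⟩ := ih (n - 1) (by omega) (by omega)
      obtain ⟨o3, l3, u3, -⟩ := ih (n - 3) (by omega) (by omega)
      obtain ⟨o2, l2, u2, -⟩ := ih (n - 2) (by omega) (by omega)
      have s1 := s1 (by omega)
      rw [show n - 1 - 2 = n - 3 by omega] at s1
      have e1 := hr n (by omega) l1 (by omega)
      have e2 := hr (n - 2) (by omega) (by rw [show n - 2 - 1 = n - 3 by omega]; exact l3)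
        (by rw [show n - 2 - 1 = n - 3 by omega]; omega)
      rw [show n - 2 - 1 = n - 3 by omega] at e2
      have hsgn : ((-1 : ℤ)) ^ n = (-1) ^ (n - 2) := by
        rw [show n = (n - 2) + 2 by omega, pow_add]; norm_num
      rw [hsgn] at e1
      generalize hx : b (n - 1) = x at *
      generalize hx' : b (n - 3) = x' at *
      have key : b n = b (n - 2) ∨ b n = b (n - 2) + 2 := by
        rcases s1 with s | s
        · subst s
          have h1 := (ih ((n : ℤ) - x).toNat (by omega) (by omega)).2.2.2 (by omega)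
          rw [show ((n : ℤ) - x).toNat - 2 = (((n - 2 : ℕ) : ℤ) - x).toNat by omega] at h1
          rw [e1, e2]
          omega
        · have h1 := (ih x.toNat (by omega) (by omega)).2.2.2 (by omega)
          rw [show x.toNat - 2 = x'.toNat by omega] at h1
          rw [show ((n : ℤ) - x).toNat = (((n - 2 : ℕ) : ℤ) - x').toNat by omega] at e1
          rw [e1, e2]
          omega
      refine ⟨by omega, by omega, by omega, fun _ => key⟩

/-- odd-indexed terms -/
def PP (b : ℕ → ℤ) (m : ℤ) : ℤ := (b (2 * m - 1).toNat + 1) / 2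

/-- even-indexed terms -/
def QQ (b : ℕ → ℤ) (m : ℤ) : ℤ := (b (2 * m).toNat + 1) / 2

lemma PP_eq {b : ℕ → ℤ} (h : Pre b) (m : ℤ) (hm : 1 ≤ m) :
    b (2 * m - 1).toNat = 2 * PP b m - 1 := by
  have := (slowb h (2 * m - 1).toNat (by omega)).1
  unfold PP
  omega

lemma QQ_eq {b : ℕ → ℤ} (h : Pre b) (m : ℤ) (hm : 1 ≤ m) :
    b (2 * m).toNat = 2 * QQ b m - 1 := by
  have := (slowb h (2 * m).toNat (by omega)).1
  unfold QQ
  omega

lemma sys_of_pre {b : ℕ → ℤ} (h : Pre b) : Sys (PP b) (QQ b) := by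
  have rP : ∀ m, 1 ≤ m → 1 ≤ PP b m ∧ PP b m ≤ m := by
    intro m hm
    have h1 := slowb h (2 * m - 1).toNat (by omega)
    have h2 := PP_eq h m hm
    omega
  have rQ : ∀ m, 1 ≤ m → 1 ≤ QQ b m ∧ QQ b m ≤ m := by
    intro m hm
    have h1 := slowb h (2 * m).toNat (by omega)
    have h2 := QQ_eq h m hm
    omega
  refine ⟨?_, ?_, ?_, ?_, ?_, ?_, rP, rQ⟩
  · unfold PP
    have := h.1
    norm_num [this]
  · unfold QQ
    have := h.2.1
    rw [show (2 * 1 : ℤ).toNat = 2 by rfl, this]
    norm_num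
  · intro m hm
    have q1 := rQ (m - 1) (by omega)
    have e0 := QQ_eq h (m - 1) (by omega)
    have e := h.2.2 (2 * m - 1).toNat (by omega)
    rw [show (2 * m - 1).toNat - 1 = (2 * (m - 1)).toNat by omega, e0] at e
    have e := e (by omega) (by omega)
    rw [PP_eq h m (by omega)] at e
    have e1 := PP_eq h (QQ b (m - 1)) (by omega)
    rw [e1] at e
    have e2 := QQ_eq h (m - QQ b (m - 1)) (by omega)
    rw [show (((2 * m - 1).toNat : ℕ) : ℤ) - (2 * QQ b (m - 1) - 1) = 2 * (m - QQ b (m - 1)) by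
      omega, e2] at e
    have e3 : ((-1 : ℤ)) ^ (2 * m - 1).toNat = -1 := by
      apply Odd.neg_one_pow
      refine ⟨(m - 1).toNat, by omega⟩
    rw [e3] at e
    omega
  · intro m hm
    have q1 := rP m (by omega)
    have e0 := PP_eq h m (by omega)
    have e := h.2.2 (2 * m).toNat (by omega)
    rw [show (2 * m).toNat - 1 = (2 * m - 1).toNat by omega, e0] at e
    have e := e (by omega) (by omega)
    rw [QQ_eq h m (by omega)] at e
    have e1 := PP_eq h (PP b m) (by omega)
    rw [e1] at e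
    have e2 := PP_eq h (m + 1 - PP b m) (by omega)
    rw [show (((2 * m).toNat : ℕ) : ℤ) - (2 * PP b m - 1) = 2 * (m + 1 - PP b m) - 1 by
      omega, e2] at e
    have e3 : ((-1 : ℤ)) ^ (2 * m).toNat = 1 := by
      apply Even.neg_one_pow
      refine ⟨m.toNat, by omega⟩
    rw [e3] at e
    omega
  · intro m hm
    have h1 := (slowb h (2 * (m + 1) - 1).toNat (by omega)).2.2.2 (by omega)
    rw [PP_eq h (m + 1) (by omega),
      show (2 * (m + 1) - 1).toNat - 2 = (2 * m - 1).toNat by omega, PP_eq h m hm] at h1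
    omega
  · intro m hm
    have h1 := (slowb h (2 * (m + 1)).toNat (by omega)).2.2.2 (by omega)
    rw [QQ_eq h (m + 1) (by omega),
      show (2 * (m + 1)).toNat - 2 = (2 * m).toNat by omega, QQ_eq h m hm] at h1
    omega

/-- the sequence, with value `0` where the recursion would break down -/
def bb (n : ℕ) : ℤ :=
  if h0 : n ≤ 2 then 1 else
    let x := bb (n - 1)
    if h : 1 ≤ x ∧ x ≤ (n : ℤ) - 1 then
      bb x.toNat + bb ((n : ℤ) - x).toNat + (-1) ^ n
    else 0
termination_by n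
decreasing_by all_goals omega

lemma pre_bb : Pre bb := by
  refine ⟨by rw [bb]; simp, by rw [bb]; simp, ?_⟩
  intro n hn h1 h2
  rw [bb, dif_neg (by omega)]
  simp only
  rw [dif_pos ⟨h1, h2⟩]

end Pool.Agent.Q49.CM
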